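import Pool.Agent.E8helper23.SG.ZT
import Pool.Agent.E8helper23.SG.Fin
import Pool.Agent.E8helper23.SG.Neg
import Pool.Agent.E8helper54.SG.Cls
import Pool.Agent.E8helper13.SG.Arc
import Pool.Agent.E8helper51.SG.Gold
import Pool.Agent.E8helper64.SG.SumT
import Pool.Agent.E8helper12.SG.DIV
import Pool.Agent.E8helper42.SG.Hsum
import Pool.Agent.E8helper38.SG.Sieve
import Pool.Agent.E8helper71.SG.Tail
import Pool.Agent.E8helper41.SG.Pows
import Pool.Agent.E8helper81.GZ.Fin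

/-!
# Goldbach representations of the multiples of `q` and exceptional zeros

Let `χ` be a primitive real character modulo `q`. Call `n` special for `χ` if `χ` is odd and `q ∣ n`, or
if `χ` is even, `q ∤ n` and `q / 2 ∣ n` or `q / 3 ∣ n`. If `p₁ + p₂ = n` with a special `n`, the primes
`p₁`, `p₂` are not both of character `-1`.

(1) Unconditionally, for `q ≥ 8`, every `x ≥ q ^ 140` and every `δ > 0`, at most
`(C / δ) (λ + q ^ (-2)) x log x / φ(q)` of the special `n` in `(x / 2, x]` satisfy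
`g n ≥ δ n / (log n) ^ 2`. Here `λ` is `‖L(1, χ)‖`, or `1 - β` for a real zero
`β ≥ 1 - 1 / log q` of `L(s, χ)`.

(2) Unconditionally, for odd `χ` and for `χ` with `3 ∣ q` or `4 ∣ q`, `q ≥ 28`, some `n` divisible by `4` or
by `6`, `q ≤ n ≤ q ^ 9`, has `g n ≤ C (q / φ(q)) log q (‖L(1, χ)‖ + q ^ (-2)) n / (log n) ^ 2`.

(3) If `g n ≥ c n / (log n) ^ 2` for all large `n` divisible by `4` or by `6`, then for every large `q`
and every primitive real `χ` modulo `q` which is odd, or whose modulus is divisible by `2` or `3`,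
`‖L(1, χ)‖ ≥ c' φ(q) / (q log q)` and all real zeros of `L(s, χ)` are at most
`1 - c' φ(q) / (q log q)`.

(4) The same conclusion if the assertion Q1 of the problem holds.
-/

set_option autoImplicit false
open Finset

namespace Pool.Agent.Results.MP_92f640_nt.ExceptionalZerosH23

/-- the number of the ordered representations of `n` as a sum of two primes -/
def g (n : ℕ) : ℕ := ((Finset.range (n + 1)).filter (fun p : ℕ => p.Prime ∧ (n - p).Prime)).card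

/-- `χ` is a primitive real character -/
def RealPrimitive (q : ℕ) (χ : DirichletCharacter ℂ q) : Prop :=
  χ.IsPrimitive ∧ ∀ a, χ a = 0 ∨ χ a = 1 ∨ χ a = -1

/-- `n` is special for `χ` -/
def Special (q : ℕ) (χ : DirichletCharacter ℂ q) (n : ℕ) : Prop :=
  (χ (-1) = -1 ∧ q ∣ n) ∨
  (χ (-1) = 1 ∧ ¬ q ∣ n ∧ ((2 ∣ q ∧ q / 2 ∣ n) ∨ (3 ∣ q ∧ q / 3 ∣ n)))

/-- `lam` is `‖L(1, χ)‖`, or `1 - β` for a real zero `β` of `L(s, χ)` with
`1 - 1 / log q ≤ β < 1` -/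
def Defect (q : ℕ) [NeZero q] (χ : DirichletCharacter ℂ q) (lam : ℝ) : Prop :=
  lam = ‖χ.LFunction 1‖ ∨
  ∃ β : ℝ, 1 - 1 / Real.log q ≤ β ∧ β < 1 ∧ χ.LFunction β = 0 ∧ lam = 1 - β

/-- the assertion Q1 of the problem, verbatim the frozen statement S17797 -/
def Q1 : Prop :=
  ∃ c : ℝ, 0 < c ∧ ∃ X₀ : ℝ, ∀ x : ℝ, X₀ ≤ x → ∀ q : ℕ, 0 < q → (q : ℝ) ≤ x / 4 →
      (((Finset.Icc 1 ⌊x⌋₊).filter (fun n : ℕ => x / 2 < (n : ℝ) ∧ Even n ∧ q ∣ n ∧
        (((Finset.range (n + 1)).filter (fun p : ℕ => p.Prime ∧ (n - p).Prime)).card : ℝ)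
          < c * (n : ℝ) / (Real.log (n : ℝ)) ^ 2)).card : ℝ) ≤ x / (8 * (q : ℝ))

/-- the lower bound for all large multiples of `4` and of `6` -/
def LowerBound : Prop :=
  ∃ c : ℝ, 0 < c ∧ ∃ n₀ : ℕ, ∀ n : ℕ, n₀ ≤ n → (4 ∣ n ∨ 6 ∣ n) →
    c * (n : ℝ) / Real.log n ^ 2 ≤ (g n : ℝ)

/-- No exceptional zeros (up to the factor `φ(q) / q`) for the primitive real characters which are odd,
or whose modulus is divisible by `2` or `3`. -/
def NoExceptionalZeros : Prop :=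
  ∃ c : ℝ, 0 < c ∧ ∃ q₀ : ℕ, ∀ (q : ℕ) [NeZero q] (χ : DirichletCharacter ℂ q), q₀ ≤ q →
    RealPrimitive q χ → (χ (-1) = -1 ∨ 2 ∣ q ∨ 3 ∣ q) →
    c * (Nat.totient q : ℝ) / (q * Real.log q) ≤ ‖χ.LFunction 1‖ ∧
    ∀ β : ℝ, χ.LFunction β = 0 → β ≤ 1 - c * (Nat.totient q : ℝ) / (q * Real.log q)

theorem lowerBound_of_Q1 (h : Q1) : LowerBound := by
  obtain ⟨c, hc, X₀, h⟩ := h
  obtain ⟨n₀, hn₀⟩ := exists_nat_ge X₀
  refine ⟨c, hc, n₀ + 1, ?_⟩
  have key : ∀ d m : ℕ, 4 ≤ d → d ≤ 6 → Even (d * m) → n₀ + 1 ≤ d * m →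
      c * ((d * m : ℕ) : ℝ) / Real.log ((d * m : ℕ) : ℝ) ^ 2 ≤ (g (d * m) : ℝ) := by
    intro d m hd4 hd6 hev hn
    have hm : 0 < m := Nat.pos_of_ne_zero (by rintro rfl; simp at hn)
    have hm' : (0 : ℝ) < m := by exact_mod_cast hm
    have hx : X₀ ≤ ((d * m : ℕ) : ℝ) := hn₀.trans (by exact_mod_cast (by omega : n₀ ≤ d * m))
    have hqx : (m : ℝ) ≤ ((d * m : ℕ) : ℝ) / 4 := by
      rw [le_div_iff₀ (by norm_num)]
      have : m * 4 ≤ d * m := by nlinarith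
      exact_mod_cast this
    have h1 := h _ hx m hm hqx
    by_contra hcon
    rw [not_le] at hcon
    have hmem : d * m ∈ (Finset.Icc 1 ⌊((d * m : ℕ) : ℝ)⌋₊).filter
        (fun n : ℕ => ((d * m : ℕ) : ℝ) / 2 < (n : ℝ) ∧ Even n ∧ m ∣ n ∧
        (((Finset.range (n + 1)).filter (fun p : ℕ => p.Prime ∧ (n - p).Prime)).card : ℝ)
          < c * (n : ℝ) / (Real.log (n : ℝ)) ^ 2) := by
      rw [Finset.mem_filter, Nat.floor_natCast, Finset.mem_Icc]
      have hdm : 0 < d * m := by omega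
      have hdm' : (0 : ℝ) < ((d * m : ℕ) : ℝ) := by exact_mod_cast hdm
      exact ⟨⟨hdm, le_rfl⟩, by linarith, hev, Dvd.intro_left d rfl, hcon⟩
    have h2 : 1 ≤ ((Finset.Icc 1 ⌊((d * m : ℕ) : ℝ)⌋₊).filter
        (fun n : ℕ => ((d * m : ℕ) : ℝ) / 2 < (n : ℝ) ∧ Even n ∧ m ∣ n ∧
        (((Finset.range (n + 1)).filter (fun p : ℕ => p.Prime ∧ (n - p).Prime)).card : ℝ)
          < c * (n : ℝ) / (Real.log (n : ℝ)) ^ 2)).card := Finset.card_pos.2 ⟨_, hmem⟩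
    have h3 : (1 : ℝ) ≤ ((d * m : ℕ) : ℝ) / (8 * (m : ℝ)) :=
      le_trans (by exact_mod_cast h2) h1
    rw [le_div_iff₀ (by positivity)] at h3
    have h4 : 8 * m ≤ d * m := by
      have : ((8 * m : ℕ) : ℝ) ≤ ((d * m : ℕ) : ℝ) := by
        push_cast at h3 ⊢
        linarith
      exact_mod_cast this
    nlinarith
  rintro n hn (⟨m, rfl⟩ | ⟨m, rfl⟩)
  · exact key 4 m le_rfl (by norm_num) ⟨2 * m, by ring⟩ hn
  · exact key 6 m (by norm_num) le_rfl ⟨3 * m, by ring⟩ hn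

open Classical in
/-- (1) Unconditionally, few of the special `n` in `(x / 2, x]` satisfy `g n ≥ δ n / (log n) ^ 2` if
`‖L(1, χ)‖` or `1 - β` is very small. (2) Unconditionally, some `n ≤ q ^ 9` divisible by `4` or `6` has
few representations if `‖L(1, χ)‖` is very small. (3) The lower bound for all large multiples of `4`
and `6` implies that there are no exceptional zeros. (4) So does Q1. -/
theorem result :
    (∃ C : ℝ, 0 < C ∧ ∀ (q : ℕ) [NeZero q] (χ : DirichletCharacter ℂ q), 8 ≤ q →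
      RealPrimitive q χ → ∀ lam : ℝ, Defect q χ lam → ∀ δ : ℝ, 0 < δ → ∀ x : ℕ, q ^ 140 ≤ x →
      (((Ioc (x / 2) x).filter (fun n : ℕ => Special q χ n ∧
        δ * n / Real.log n ^ 2 ≤ (g n : ℝ))).card : ℝ) ≤
          C / δ * (lam + 1 / (q : ℝ) ^ 2) * (x * Real.log x / Nat.totient q)) ∧
    (∃ C : ℝ, 0 < C ∧ ∀ (q : ℕ) [NeZero q] (χ : DirichletCharacter ℂ q), 28 ≤ q →
      RealPrimitive q χ → (χ (-1) = -1 ∨ 3 ∣ q ∨ 4 ∣ q) →
      ∃ n : ℕ, q ≤ n ∧ n ≤ q ^ 9 ∧ (4 ∣ n ∨ 6 ∣ n) ∧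
        (g n : ℝ) ≤ C * (q / Nat.totient q) * Real.log q *
          (‖χ.LFunction 1‖ + 1 / (q : ℝ) ^ 2) * (n / Real.log n ^ 2)) ∧
    (LowerBound → NoExceptionalZeros) ∧
    (Q1 → NoExceptionalZeros) := by
  have hPos := E8helper63.SZ.t_POS
  have hCls := E8helper54.SG.t_CLS
  have hArc := E8helper13.SG.t_ARC
  have hGold := E8helper51.SG.t_GOLD hCls hArc
  have hDiv := E8helper12.SG.t_DIV E8helper64.SG.t_SUMT
  have hSieve := E8helper38.SG.t_SIEVE hDiv E8helper42.SG.t_HSUM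
  have hZT := E8helper23.SG.t_ZT E8helper71.SG.t_TAIL E8helper41.SG.t_POWS hPos
  have hRP : ∀ (q : ℕ) (χ : DirichletCharacter ℂ q), RealPrimitive q χ →
      E8helper22.SZ.RealPrim q χ := fun q χ h => ⟨h.1, h.2⟩
  have h2 : LowerBound → NoExceptionalZeros := by
    intro h
    obtain ⟨c, hc, q₀, h⟩ := E8helper23.SG.t_FIN2 hGold hSieve hZT h
    exact ⟨c, hc, q₀, fun q _ χ hq hχ hcl => h q χ hq (hRP q χ hχ) hcl⟩
  refine ⟨?_, ?_, h2, fun h => h2 (lowerBound_of_Q1 h)⟩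
  rotate_left
  · obtain ⟨C, hC, h1⟩ := Pool.Agent.E8helper81.GZ.exists_n
    exact ⟨C, hC, fun q _ χ hq hχ hcond => h1 q χ hq ⟨hχ.1, hχ.2⟩ hcond⟩
  obtain ⟨C, hC, h⟩ := E8helper23.SG.t_NEG hCls hArc hSieve hZT
  refine ⟨2 * C, by positivity, ?_⟩
  intro q _ χ hq hχ lam hlam δ hδ x hx
  have h1 := h q χ hq (hRP q χ hχ) lam hlam (δ / 2) (by positivity) x hx
    ((Ioc (x / 2) x).filter (fun n : ℕ => Special q χ n ∧
        δ * n / Real.log n ^ 2 ≤ (g n : ℝ))) (by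
      intro n hn
      rw [mem_filter, mem_Ioc] at hn
      obtain ⟨⟨hn1, hn2⟩, hn3, hn4⟩ := hn
      refine ⟨hn2, hn3, le_trans ?_ hn4⟩
      have hx8 : 8 ≤ x := by
        calc 8 ≤ q := hq
          _ = q ^ 1 := (pow_one q).symm
          _ ≤ q ^ 140 := Nat.pow_le_pow_right (by omega) (by norm_num)
          _ ≤ x := hx
      have hn5 : 4 < n := by omega
      have hn6 : (4 : ℝ) < n := by exact_mod_cast hn5
      have hn7 : (x : ℝ) ≤ 2 * n := by exact_mod_cast (by omega : x ≤ 2 * n)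
      have hlog : 0 < Real.log n := Real.log_pos (by linarith)
      have hlog2 : Real.log n ≤ Real.log x := Real.log_le_log (by linarith) (by exact_mod_cast hn2)
      calc δ / 2 * x / Real.log x ^ 2 ≤ δ / 2 * (2 * n) / Real.log n ^ 2 := by gcongr
        _ = δ * n / Real.log n ^ 2 := by ring)
  refine h1.trans (le_of_eq ?_)
  field_simp

end Pool.Agent.Results.MP_92f640_nt.ExceptionalZerosH23
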