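import Pool.Agent.E8helper15.TR.Core

/-!
# The assertion on the multiples of `q` is decided by the moduli `q ≥ x / 199`

For every fixed constant `c` the assertion of Q1 is equivalent to its restriction to the moduli
`x / 199 ≤ q ≤ x / 4`, and to the following: the lower bound `g n ≥ c n / (log n)²` holds for ALL
large multiples `n` of `4`, `6`, `10` or `14`, and for every large `k` and each of fifteen lengths
`y ≤ 199` at most `y / 8` of the integers `m ∈ (y / 2, y]` coprime to `210` are such that the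
lower bound fails for `2 k m` (for `y = 13`: it does not fail for both `22 k` and `26 k`).

The reason is that an exceptional `n` must have `n / 2` coprime to `210`, and that the integers
coprime to `210` have the density `8 / 35`, so that there are at most `y / 8` of them in `(y / 2, y]`,
for all `y ≥ 2` coprime to `210` with exactly fifteen exceptions.
-/

set_option autoImplicit false
open Finset

namespace Pool.Agent.Results.MP_92f640_nt.TopRangeDecidesH15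

/-- the number of the ordered representations of `n` as a sum of two primes -/
def g (n : ℕ) : ℕ := ((Finset.range (n + 1)).filter (fun p : ℕ => p.Prime ∧ (n - p).Prime)).card

/-- the lower bound `g n ≥ c n / (log n)²` fails -/
def Exc (c : ℝ) (n : ℕ) : Prop := (g n : ℝ) < c * (n : ℝ) / (Real.log (n : ℝ)) ^ 2

open Classical in
/-- At most `x / (8 q)` of the even multiples `n` of `q` in `(x / 2, x]` are exceptional: the assertion
of Q1 for `c`, `x` and `q`. -/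
def Few (c x : ℝ) (q : ℕ) : Prop :=
  (((Finset.Icc 1 ⌊x⌋₊).filter (fun n : ℕ => x / 2 < (n : ℝ) ∧ Even n ∧ q ∣ n ∧ Exc c n)).card : ℝ) ≤
    x / (8 * (q : ℝ))

/-- fifteen lengths -/
def lengths : Finset ℕ := {13, 17, 19, 23, 29, 31, 37, 43, 47, 53, 61, 71, 73, 79, 199}

open Classical in
/-- The lower bound holds for all multiples `n ≥ n₀` of `4`, `6`, `10` or `14`, and for all `k ≥ n₀` and
each of the fifteen lengths `y` it fails for at most `y / 8` of the `2 k m`, where `m` runs through the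
integers in `(y / 2, y]` coprime to `210`. -/
def Cond (c : ℝ) (n₀ : ℕ) : Prop :=
  (∀ n, n₀ ≤ n → (4 ∣ n ∨ 6 ∣ n ∨ 10 ∣ n ∨ 14 ∣ n) → ¬ Exc c n) ∧
  ∀ k, n₀ ≤ k → ∀ y ∈ lengths,
    ((Finset.Ioc (y / 2) y).filter (fun m => Nat.Coprime m 210 ∧ Exc c (2 * k * m))).card ≤ y / 8

/-- (1) For every `c`, the assertion of Q1 with the constant `c` for all moduli `q ≤ x / 4` is equivalent
to the assertion for the moduli `x / 199 ≤ q ≤ x / 4`, and to `Cond c n₀` for some `n₀`.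
(2) Q1 (verbatim the frozen statement S17797) is equivalent to `Cond c n₀` for some `c > 0` and `n₀`.
(3) Q1 follows from the lower bound `g n ≥ c n / (log n)²` for the large even `n` such that `n / 2` has a
prime factor `≤ 41`. -/
theorem result :
    (∀ c : ℝ,
      ((∃ X₀ : ℝ, ∀ x : ℝ, X₀ ≤ x → ∀ q : ℕ, 0 < q → (q : ℝ) ≤ x / 4 → Few c x q) ↔
       (∃ X₀ : ℝ, ∀ x : ℝ, X₀ ≤ x → ∀ q : ℕ, 0 < q → x / 199 ≤ (q : ℝ) → (q : ℝ) ≤ x / 4 →
          Few c x q)) ∧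
      ((∃ X₀ : ℝ, ∀ x : ℝ, X₀ ≤ x → ∀ q : ℕ, 0 < q → (q : ℝ) ≤ x / 4 → Few c x q) ↔
       ∃ n₀ : ℕ, Cond c n₀)) ∧
    ((∃ c : ℝ, 0 < c ∧ ∃ X₀ : ℝ, ∀ x : ℝ, X₀ ≤ x → ∀ q : ℕ, 0 < q → (q : ℝ) ≤ x / 4 →
        (((Finset.Icc 1 ⌊x⌋₊).filter (fun n : ℕ => x / 2 < (n : ℝ) ∧ Even n ∧ q ∣ n ∧
          (((Finset.range (n + 1)).filter (fun p : ℕ => p.Prime ∧ (n - p).Prime)).card : ℝ)
            < c * (n : ℝ) / (Real.log (n : ℝ)) ^ 2)).card : ℝ) ≤ x / (8 * (q : ℝ))) ↔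
      ∃ c : ℝ, 0 < c ∧ ∃ n₀ : ℕ, Cond c n₀) ∧
    ((∃ c : ℝ, 0 < c ∧ ∃ n₀ : ℕ, ∀ n, n₀ ≤ n → Even n → (∃ p, p.Prime ∧ p ≤ 41 ∧ p ∣ n / 2) →
        c * (n : ℝ) / (Real.log (n : ℝ)) ^ 2 ≤ (g n : ℝ)) →
      ∃ c : ℝ, 0 < c ∧ ∃ X₀ : ℝ, ∀ x : ℝ, X₀ ≤ x → ∀ q : ℕ, 0 < q → (q : ℝ) ≤ x / 4 →
        (((Finset.Icc 1 ⌊x⌋₊).filter (fun n : ℕ => x / 2 < (n : ℝ) ∧ Even n ∧ q ∣ n ∧
          (((Finset.range (n + 1)).filter (fun p : ℕ => p.Prime ∧ (n - p).Prime)).card : ℝ)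
            < c * (n : ℝ) / (Real.log (n : ℝ)) ^ 2)).card : ℝ) ≤ x / (8 * (q : ℝ))) := by
  classical
  have h1 : ∀ c : ℝ,
      (∃ X₀ : ℝ, ∀ x : ℝ, X₀ ≤ x → ∀ q : ℕ, 0 < q → (q : ℝ) ≤ x / 4 → Few c x q) ↔
      ∃ n₀ : ℕ, Cond c n₀ := by
    intro c
    constructor
    · rintro ⟨X₀, h⟩
      exact E8helper15.TR.forward ⟨X₀, fun x hx q hq _ hq2 => h x hx q hq hq2⟩
    · exact fun h => E8helper15.TR.backward h
  have h2 : ∀ c : ℝ,
      (∃ X₀ : ℝ, ∀ x : ℝ, X₀ ≤ x → ∀ q : ℕ, 0 < q → (q : ℝ) ≤ x / 4 → Few c x q) ↔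
       (∃ X₀ : ℝ, ∀ x : ℝ, X₀ ≤ x → ∀ q : ℕ, 0 < q → x / 199 ≤ (q : ℝ) → (q : ℝ) ≤ x / 4 →
          Few c x q) := by
    intro c
    constructor
    · rintro ⟨X₀, h⟩
      exact ⟨X₀, fun x hx q hq _ hq2 => h x hx q hq hq2⟩
    · exact fun h => E8helper15.TR.backward (E8helper15.TR.forward h)
  have h3 : ∀ c x : ℝ, ∀ q : ℕ, Few c x q ↔
      ((((Finset.Icc 1 ⌊x⌋₊).filter (fun n : ℕ => x / 2 < (n : ℝ) ∧ Even n ∧ q ∣ n ∧
          (((Finset.range (n + 1)).filter (fun p : ℕ => p.Prime ∧ (n - p).Prime)).card : ℝ)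
            < c * (n : ℝ) / (Real.log (n : ℝ)) ^ 2)).card : ℝ) ≤ x / (8 * (q : ℝ))) := by
    intro c x q
    unfold Few Exc g
    convert Iff.rfl
  have h4 : ∀ c : ℝ, (∃ n₀ : ℕ, Cond c n₀) →
      ∃ X₀ : ℝ, ∀ x : ℝ, X₀ ≤ x → ∀ q : ℕ, 0 < q → (q : ℝ) ≤ x / 4 →
        (((Finset.Icc 1 ⌊x⌋₊).filter (fun n : ℕ => x / 2 < (n : ℝ) ∧ Even n ∧ q ∣ n ∧
          (((Finset.range (n + 1)).filter (fun p : ℕ => p.Prime ∧ (n - p).Prime)).card : ℝ)
            < c * (n : ℝ) / (Real.log (n : ℝ)) ^ 2)).card : ℝ) ≤ x / (8 * (q : ℝ)) := by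
    intro c hn
    obtain ⟨X₀, h⟩ := (h1 c).2 hn
    exact ⟨X₀, fun x hx q hq hqx => (h3 c x q).1 (h x hx q hq hqx)⟩
  refine ⟨fun c => ⟨h2 c, h1 c⟩, ⟨?_, ?_⟩, ?_⟩
  · rintro ⟨c, hc, X₀, h⟩
    exact ⟨c, hc, (h1 c).1 ⟨X₀, fun x hx q hq hqx => (h3 c x q).2 (h x hx q hq hqx)⟩⟩
  · rintro ⟨c, hc, hn⟩
    exact ⟨c, hc, h4 c hn⟩
  · rintro ⟨c, hc, n₀, h⟩
    refine ⟨c, hc, h4 c ⟨n₀ + 1, ?_, ?_⟩⟩
    · intro n hn hd hE
      have key : ∀ p, p.Prime → p ≤ 41 → 2 * p ∣ n → False := by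
        rintro p hp h41 ⟨j, rfl⟩
        have h5 := h (2 * p * j) (by omega) ⟨p * j, by ring⟩ ⟨p, hp, h41, ⟨j, by
          rw [mul_assoc, Nat.mul_div_cancel_left _ (by norm_num)]⟩⟩
        unfold Exc at hE
        linarith
      rcases hd with hd | hd | hd | hd
      · exact key 2 Nat.prime_two (by norm_num) hd
      · exact key 3 Nat.prime_three (by norm_num) hd
      · exact key 5 Nat.prime_five (by norm_num) hd
      · exact key 7 (by norm_num) (by norm_num) hd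
    · intro k hk y hy
      have h6 : ∀ y ∈ lengths, ((Finset.Ioc (y / 2) y).filter
          (fun m => Nat.Coprime m (2 * 3 * 5 * 7 * 11 * 13 * 17 * 19 * 23 * 29 * 31 * 37 * 41))).card ≤
            y / 8 := by decide +kernel
      refine le_trans (Finset.card_le_card ?_) (h6 y hy)
      intro m hm
      obtain ⟨hm1, -, hm2⟩ := Finset.mem_filter.1 hm
      rw [Finset.mem_filter]
      refine ⟨hm1, ?_⟩
      rw [Finset.mem_Ioc] at hm1
      have hm0 : 0 < m := by omega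
      have key : ∀ p, p.Prime → p ≤ 41 → Nat.Coprime m p := by
        intro p hp h41
        rw [Nat.coprime_comm, Nat.Prime.coprime_iff_not_dvd hp]
        intro hd
        have h5 := h (2 * k * m) (by nlinarith) ⟨k * m, by ring⟩ ⟨p, hp, h41, by
          rw [mul_assoc, Nat.mul_div_cancel_left _ (by norm_num)]
          exact hd.mul_left k⟩
        unfold Exc at hm2
        linarith
      repeat' apply Nat.Coprime.mul_right
      all_goals exact key _ (by norm_num) (by norm_num)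

end Pool.Agent.Results.MP_92f640_nt.TopRangeDecidesH15
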